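import Pool.Agent.H59.Seth.Param

/-!
# Partitions into members of an arbitrary family need `2 ^ ((1 - ε) n)` cells to refute CNFs

For every family of at most `2 ^ n ^ c` subsets of the Boolean cube there is an unsatisfiable CNF
formula of polynomial size such that every (fractional) partition of the cube into members of the
family, each refuted by few clauses of the formula, has size at least `2 ^ ((1 - ε) n)`.
-/

open Finset

namespace Pool.Agent.H59.Seth.Old.FamilySETH

/-- A clause over `n` Boolean variables: a finite set of literals, where the literal `(i, b)` is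
true under the assignment `x` when `x i = b`. -/
abbrev Clause (n : ℕ) := Finset (Fin n × Bool)

/-- A CNF formula over `n` Boolean variables: a finite set of clauses. -/
abbrev CNF (n : ℕ) := Finset (Clause n)

/-- The assignment `x` satisfies the clause `C`. -/
def Satisfies {n : ℕ} (x : Fin n → Bool) (C : Clause n) : Prop := ∃ l ∈ C, x l.1 = l.2

/-- The CNF formula has no satisfying assignment. -/
def Unsat {n : ℕ} (F : CNF n) : Prop := ∀ x : Fin n → Bool, ∃ C ∈ F, ¬ Satisfies x C

/-- A fractional partition of the Boolean cube refuting the CNF formula `F`: `N` nonempty cells,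
all from the family `𝒜`, with nonnegative weights such that at every assignment the weights of the
cells containing it add up to one, and such that inside every cell the formula `F` is refuted by
at most `n / s` of its clauses: there are clauses `F' ⊆ F` with `F'.card * s ≤ n` such that every
assignment in the cell violates one of them. (All weights one: an ordinary partition.) -/
structure FractionalPartition {n : ℕ} (𝒜 : Finset (Finset (Fin n → Bool))) (F : CNF n)
    (s N : ℕ) where
  cell : Fin N → Finset (Fin n → Bool)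
  w : Fin N → ℝ
  mem : ∀ t, cell t ∈ 𝒜
  nonempty : ∀ t, (cell t).Nonempty
  nonneg : ∀ t, 0 ≤ w t
  total : ∀ x : Fin n → Bool, ∑ t, (if x ∈ cell t then w t else 0) = 1
  closed : ∀ t, ∃ F' ⊆ F, F'.card * s ≤ n ∧ ∀ x ∈ cell t, ∃ C ∈ F', ¬ Satisfies x C

lemma weight_le_one {n : ℕ} {𝒜 : Finset (Finset (Fin n → Bool))} {F : CNF n} {s N : ℕ}
    (P : FractionalPartition 𝒜 F s N) (t : Fin N) : P.w t ≤ 1 := by
  obtain ⟨x, hx⟩ := P.nonempty t
  rw [← P.total x]
  have := Finset.single_le_sum (f := fun t => if x ∈ P.cell t then P.w t else 0)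
    (s := univ) (fun t _ => by split_ifs; exacts [P.nonneg t, le_rfl]) (mem_univ t)
  simp only [if_pos hx] at this
  exact this

/-- For all `c` and `ε > 0` there is `K` such that for all large `n` and every family `𝒜` of at
most `2 ^ n ^ c` subsets of the Boolean cube there is an unsatisfiable CNF formula on `n`
variables with at most `n ^ K` clauses of width at most `K * log₂ n`, all of whose refutations by
fractional partitions into members of `𝒜` (with local refutations of at most `n / (K * log₂ n)`
clauses inside the cells) have total weight, hence also number of cells, at least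
`2 ^ ((1 - ε) n)`. -/
theorem result : ∀ (c : ℕ) (ε : ℝ), 0 < ε → ∃ K n0 : ℕ, ∀ n, n0 ≤ n →
    ∀ 𝒜 : Finset (Finset (Fin n → Bool)), 𝒜.card ≤ 2 ^ n ^ c →
      ∃ F : CNF n, F.card ≤ n ^ K ∧ (∀ C ∈ F, C.card ≤ K * Nat.log 2 n) ∧ Unsat F ∧
        ∀ (N : ℕ) (P : FractionalPartition 𝒜 F (K * Nat.log 2 n) N),
          (2 : ℝ) ^ ((1 - ε) * n) ≤ ∑ t, P.w t ∧ ∑ t, P.w t ≤ N := by
  intro c ε hε
  obtain ⟨K, n0, h⟩ := Pool.Agent.H59.Seth.main c ε hε
  refine ⟨K, n0, fun n hn 𝒜 h𝒜 => ?_⟩
  obtain ⟨F, hF1, hF2, hF3, hF4⟩ := h n hn 𝒜 h𝒜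
  refine ⟨F, hF2, hF1, hF3, fun N P =>
    ⟨hF4 N P.cell P.w P.mem P.nonneg P.total P.closed, ?_⟩⟩
  calc ∑ t, P.w t ≤ ∑ t : Fin N, (1 : ℝ) := Finset.sum_le_sum fun t _ => weight_le_one P t
    _ = N := by simp

end Pool.Agent.H59.Seth.Old.FamilySETH
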